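import Pool.Agent.Q82.MD.Stm

/-!
# Smooth selection of the multiplier in the S-lemma
-/

set_option autoImplicit false

namespace Pool.Agent.Q210.MD

open MeasureTheory Set Filter Topology
open Pool.Agent.W779.Morrey Pool.Agent.Q82.MD

open scoped Manifold ContDiff

/-- a positive definite form on a finite-dimensional space -/
theorem exists_form (X : Type) [NormedAddCommGroup X] [NormedSpace ℝ X] [FiniteDimensional ℝ X] :
    ∃ (e : X →L[ℝ] X →L[ℝ] ℝ) (m M : ℝ), 0 < m ∧ 0 < M ∧ (∀ a b, e a b = e b a) ∧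
      (∀ x, m * ‖x‖ ^ 2 ≤ e x x) ∧ ∀ x, e x x ≤ M * ‖x‖ ^ 2 := by
  let φ : X ≃L[ℝ] EuclideanSpace ℝ (Fin (Module.finrank ℝ X)) := toEuclidean
  let e : X →L[ℝ] X →L[ℝ] ℝ :=
    (innerSL ℝ (E := EuclideanSpace ℝ (Fin (Module.finrank ℝ X)))).bilinearComp
      (φ : X →L[ℝ] EuclideanSpace ℝ (Fin (Module.finrank ℝ X)))
      (φ : X →L[ℝ] EuclideanSpace ℝ (Fin (Module.finrank ℝ X)))
  have he : ∀ a b, e a b = inner ℝ (φ a) (φ b) := fun a b => rfl
  let C : ℝ := ‖(φ : X →L[ℝ] EuclideanSpace ℝ (Fin (Module.finrank ℝ X)))‖ + 1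
  let c : ℝ := ‖(φ.symm : EuclideanSpace ℝ (Fin (Module.finrank ℝ X)) →L[ℝ] X)‖ + 1
  have hC : 0 < C := by positivity
  have hc : 0 < c := by positivity
  refine ⟨e, (c ^ 2)⁻¹, C ^ 2, by positivity, by positivity, fun a b => ?_, fun x => ?_,
    fun x => ?_⟩
  · rw [he, he, real_inner_comm]
  · rw [he, real_inner_self_eq_norm_sq]
    have h1 : ‖x‖ ≤ c * ‖φ x‖ := by
      have h2 : ‖φ.symm (φ x)‖ ≤
          ‖(φ.symm : EuclideanSpace ℝ (Fin (Module.finrank ℝ X)) →L[ℝ] X)‖ * ‖φ x‖ :=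
        (φ.symm : EuclideanSpace ℝ (Fin (Module.finrank ℝ X)) →L[ℝ] X).le_opNorm (φ x)
      rw [φ.symm_apply_apply] at h2
      refine h2.trans ?_
      exact mul_le_mul_of_nonneg_right (by simp only [c]; linarith) (norm_nonneg _)
    have h3 : ‖x‖ ^ 2 ≤ c ^ 2 * ‖φ x‖ ^ 2 := by
      rw [← mul_pow]
      exact pow_le_pow_left₀ (norm_nonneg _) h1 2
    rw [inv_mul_le_iff₀ (by positivity)]
    exact h3
  · rw [he, real_inner_self_eq_norm_sq]
    have h1 : ‖φ x‖ ≤ C * ‖x‖ := by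
      have h2 : ‖φ x‖ ≤
          ‖(φ : X →L[ℝ] EuclideanSpace ℝ (Fin (Module.finrank ℝ X)))‖ * ‖x‖ :=
        (φ : X →L[ℝ] EuclideanSpace ℝ (Fin (Module.finrank ℝ X))).le_opNorm x
      refine h2.trans ?_
      exact mul_le_mul_of_nonneg_right (by simp only [C]; linarith) (norm_nonneg _)
    rw [← mul_pow]
    exact pow_le_pow_left₀ (norm_nonneg _) h1 2

/-- JOB MD-3 SEL -/
theorem sel : S_SLEM → S_SEL := by
  intro hS X _ _ _ G δ η hG hGs hδs hp hn hη hq
  obtain ⟨e, m, M, hm, hM, hes, hel, heu⟩ := exists_form X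
  let t : V → Set ℝ := fun y => {c | ∀ x, 0 ≤ G y x x + c * δ x x}
  have ht : ∀ y, Convex ℝ (t y) := by
    intro y a ha b hb s r hs hr hsr x
    have h1 := mul_nonneg hs (ha x)
    have h2 := mul_nonneg hr (hb x)
    have h3 : G y x x + (s • a + r • b) * δ x x =
        s * (G y x x + a * δ x x) + r * (G y x x + b * δ x x) := by
      rw [smul_eq_mul, smul_eq_mul]
      linear_combination (-(G y x x)) * hsr
    rw [h3]
    exact add_nonneg h1 h2
  have hloc : ∀ y₀ : V, ∃ c : ℝ, ∀ᶠ y in 𝓝 y₀, c ∈ t y := by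
    intro y₀
    obtain ⟨c, hc⟩ := hS X (G y₀ - (η / (2 * M)) • e) δ (by
      intro a b
      simp only [sub_apply, smul_apply]
      rw [hGs, hes]) hδs hp hn (by
      intro x hx
      have h1 := hq y₀ x hx
      have h2 := heu x
      simp only [sub_apply, smul_apply, smul_eq_mul]
      have h3 : η / (2 * M) * e x x ≤ η / 2 * ‖x‖ ^ 2 := by
        calc η / (2 * M) * e x x ≤ η / (2 * M) * (M * ‖x‖ ^ 2) :=
              mul_le_mul_of_nonneg_left h2 (by positivity)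
          _ = η / 2 * ‖x‖ ^ 2 := by field_simp
      have h4 : 0 ≤ η / 2 * ‖x‖ ^ 2 := by positivity
      linarith)
    refine ⟨c, ?_⟩
    have hε : 0 < η / (2 * M) * m := by positivity
    have h1 : ∀ᶠ y in 𝓝 y₀, dist (G y) (G y₀) < η / (2 * M) * m :=
      (hG.continuousAt (x := y₀)).eventually (Metric.ball_mem_nhds (G y₀) hε)
    filter_upwards [h1] with y hy
    have hy : ‖G y - G y₀‖ < η / (2 * M) * m := (dist_eq_norm (G y) (G y₀)).symm.trans_lt hy
    intro x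
    have h2 := hc x
    simp only [sub_apply, smul_apply, smul_eq_mul] at h2
    have h3 : |G y x x - G y₀ x x| ≤ ‖G y - G y₀‖ * ‖x‖ ^ 2 := by
      have h4 := (G y - G y₀).le_opNorm₂ x x
      rw [sub_apply, sub_apply, Real.norm_eq_abs] at h4
      rw [sq, ← mul_assoc]
      exact h4
    have h5 : ‖G y - G y₀‖ * ‖x‖ ^ 2 ≤ η / (2 * M) * m * ‖x‖ ^ 2 :=
      mul_le_mul_of_nonneg_right hy.le (by positivity)
    have h6 : η / (2 * M) * m * ‖x‖ ^ 2 ≤ η / (2 * M) * e x x := by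
      rw [mul_assoc]
      exact mul_le_mul_of_nonneg_left (hel x) (by positivity)
    have h7 := (abs_le.1 h3).1
    linarith
  obtain ⟨g, hg⟩ := exists_contMDiffMap_forall_mem_convex_of_local_const (n := 1)
    (modelWithCornersSelf ℝ V) ht hloc
  refine ⟨g, ?_, fun y x => hg y x⟩
  exact contMDiff_iff_contDiff.1 g.contMDiff

end Pool.Agent.Q210.MD
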